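import Pool.Agent.Y745.LD.DefsA
import Pool.Agent.Y41.SW.FM
import Pool.Agent.Y655.SW.MC

set_option autoImplicit false

/-!
LD project (helper745), job LD-VMS (helper665). Part A: homogeneous arithmetic functions and sums of squares of the
coefficients of products.
-/

namespace Pool.Agent.Y665.LD

open Filter Topology MeasureTheory Complex
open Pool.Agent.Y745.SW Pool.Agent.Y745.LD Pool.Agent.Y41.SW

noncomputable section

/-- the arithmetic function with the values `g p` at the primes `p ≤ y` -/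
def gA (y : ℝ) (g : ℕ → ℝ) : ArithmeticFunction ℝ :=
  ⟨fun n => if n.Prime ∧ (n : ℝ) ≤ y then g n else 0, by simp [Nat.not_prime_zero]⟩

lemma gA_apply (y : ℝ) (g : ℕ → ℝ) (n : ℕ) :
    gA y g n = if n.Prime ∧ (n : ℝ) ≤ y then g n else 0 := rfl

lemma gA_supp (y : ℝ) (g : ℕ → ℝ) : ∀ n : ℕ, ⌊y⌋₊ < n → gA y g n = 0 := by
  intro n hn
  have : ¬ (n.Prime ∧ (n : ℝ) ≤ y) := by
    rintro ⟨_, h⟩
    have := Nat.le_floor h
    omega
  rw [gA_apply, if_neg this]

/-- homogeneous of degree `k` -/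
def Hm (k : ℕ) (f : ArithmeticFunction ℝ) : Prop := ∀ n, f n ≠ 0 → ArithmeticFunction.cardFactors n = k

lemma Hm.mul {k l : ℕ} {f g : ArithmeticFunction ℝ} (hf : Hm k f) (hg : Hm l g) : Hm (k + l) (f * g) := by
  intro n hn
  rw [ArithmeticFunction.mul_apply] at hn
  obtain ⟨x, hx, hx2⟩ := Finset.exists_ne_zero_of_sum_ne_zero hn
  rw [Nat.mem_divisorsAntidiagonal] at hx
  have h1 := left_ne_zero_of_mul hx2
  have h2 := right_ne_zero_of_mul hx2
  have h10 : x.1 ≠ 0 := by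
    intro h; rw [h, ArithmeticFunction.map_zero] at h1; exact h1 rfl
  have h20 : x.2 ≠ 0 := by
    intro h; rw [h, ArithmeticFunction.map_zero] at h2; exact h2 rfl
  rw [← hx.1, ArithmeticFunction.cardFactors_mul h10 h20, hf _ h1, hg _ h2]

lemma Hm_one : Hm 0 (1 : ArithmeticFunction ℝ) := by
  intro n hn
  rw [ArithmeticFunction.one_apply] at hn
  by_cases h : n = 1
  · rw [h]; exact ArithmeticFunction.cardFactors_one
  · rw [if_neg h] at hn; exact absurd rfl hn

lemma Hm_gA (y : ℝ) (g : ℕ → ℝ) : Hm 1 (gA y g) := by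
  intro n hn
  rw [gA_apply] at hn
  by_cases h : n.Prime ∧ (n : ℝ) ≤ y
  · exact ArithmeticFunction.cardFactors_apply_prime h.1
  · rw [if_neg h] at hn; exact absurd rfl hn

lemma Hm.pow {f : ArithmeticFunction ℝ} (hf : Hm 1 f) (k : ℕ) : Hm k (f ^ k) := by
  induction k with
  | zero => rw [pow_zero]; exact Hm_one
  | succ k ih => rw [pow_succ]; exact ih.mul hf

lemma sq_conv_le {k : ℕ} {f : ArithmeticFunction ℝ} (hf : Hm k f) (y : ℝ) (g : ℕ → ℝ) (n : ℕ) :
    ((f * gA y g) n) ^ 2 ≤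
      ((k : ℝ) + 1) * ∑ x ∈ n.divisorsAntidiagonal, (f x.1) ^ 2 * (gA y g x.2) ^ 2 := by
  rw [ArithmeticFunction.mul_apply, ← Finset.sum_filter_ne_zero]
  set S := (n.divisorsAntidiagonal).filter (fun x => f x.1 * gA y g x.2 ≠ 0) with hS
  have h1 : (∑ x ∈ S, f x.1 * gA y g x.2) ^ 2 ≤ (S.card : ℝ) * ∑ x ∈ S, (f x.1 * gA y g x.2) ^ 2 :=
    sq_sum_le_card_mul_sum_sq
  have h2 : ∑ x ∈ S, (f x.1 * gA y g x.2) ^ 2 ≤
      ∑ x ∈ n.divisorsAntidiagonal, (f x.1) ^ 2 * (gA y g x.2) ^ 2 := by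
    have e : ∀ x : ℕ × ℕ, (f x.1 * gA y g x.2) ^ 2 = (f x.1) ^ 2 * (gA y g x.2) ^ 2 := fun x => by ring
    simp only [e]
    apply Finset.sum_le_sum_of_subset_of_nonneg (Finset.filter_subset _ _)
    intro x _ _
    positivity
  have h0 : 0 ≤ ∑ x ∈ S, (f x.1 * gA y g x.2) ^ 2 := Finset.sum_nonneg fun x _ => sq_nonneg _
  have h3 : S.card ≤ k + 1 := by
    rcases S.eq_empty_or_nonempty with h | ⟨x, hx⟩
    · rw [h, Finset.card_empty]; omega
    · have hx' := hx
      rw [hS, Finset.mem_filter, Nat.mem_divisorsAntidiagonal] at hx'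
      have ha := left_ne_zero_of_mul hx'.2
      have hb := right_ne_zero_of_mul hx'.2
      have hk1 : ArithmeticFunction.cardFactors n = k + 1 := by
        have h10 : x.1 ≠ 0 := by
          intro h; rw [h, ArithmeticFunction.map_zero] at ha; exact ha rfl
        have h20 : x.2 ≠ 0 := by
          intro h; rw [h, ArithmeticFunction.map_zero] at hb; exact hb rfl
        rw [← hx'.1.1, ArithmeticFunction.cardFactors_mul h10 h20, hf _ ha, Hm_gA y g _ hb]
      have hcard : S.card ≤ n.primeFactors.card := by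
        apply Finset.card_le_card_of_injOn (fun x => x.2)
        · intro z hz
          have hz' : z ∈ S := hz
          rw [hS, Finset.mem_filter, Nat.mem_divisorsAntidiagonal] at hz'
          have hb' := right_ne_zero_of_mul hz'.2
          rw [gA_apply] at hb'
          have hp : z.2.Prime ∧ (z.2 : ℝ) ≤ y := by
            by_contra h; rw [if_neg h] at hb'; exact hb' rfl
          show z.2 ∈ n.primeFactors
          rw [Nat.mem_primeFactors]
          exact ⟨hp.1, ⟨z.1, by rw [← hz'.1.1]; ring⟩, hz'.1.2⟩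
        · intro z hz w hw hzw
          have hz' : z ∈ S := hz
          have hw' : w ∈ S := hw
          rw [hS, Finset.mem_filter, Nat.mem_divisorsAntidiagonal] at hz' hw'
          have hzw' : z.2 = w.2 := hzw
          have h20 : z.2 ≠ 0 := by
            intro h
            have := right_ne_zero_of_mul hz'.2
            rw [h, ArithmeticFunction.map_zero] at this
            exact this rfl
          have e : z.1 * z.2 = w.1 * z.2 := by
            rw [hz'.1.1, hzw', hw'.1.1]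
          have e1 : z.1 = w.1 := Nat.eq_of_mul_eq_mul_right (Nat.pos_of_ne_zero h20) e
          exact Prod.ext e1 hzw'
      have hcard2 : n.primeFactors.card ≤ ArithmeticFunction.cardFactors n := by
        rw [ArithmeticFunction.cardFactors_apply]
        exact List.toFinset_card_le _
      omega
  have h3' : (S.card : ℝ) ≤ (k : ℝ) + 1 := by exact_mod_cast h3
  calc (∑ x ∈ S, f x.1 * gA y g x.2) ^ 2 ≤ (S.card : ℝ) * ∑ x ∈ S, (f x.1 * gA y g x.2) ^ 2 := h1
    _ ≤ ((k : ℝ) + 1) * ∑ x ∈ n.divisorsAntidiagonal, (f x.1) ^ 2 * (gA y g x.2) ^ 2 :=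
        mul_le_mul h3' h2 h0 (by positivity)

lemma sum_conv_le (F G : ℕ → ℝ) (hF : ∀ n, 0 ≤ F n) (hG : ∀ n, 0 ≤ G n) (N : ℕ) :
    ∑ n ∈ Finset.Icc 1 N, ∑ x ∈ n.divisorsAntidiagonal, F x.1 * G x.2 ≤
      (∑ n ∈ Finset.Icc 1 N, F n) * ∑ n ∈ Finset.Icc 1 N, G n := by
  rw [Finset.sum_mul_sum, ← Finset.sum_product']
  set S := (Finset.Icc 1 N ×ˢ Finset.Icc 1 N).filter (fun x => x.1 * x.2 ≤ N) with hS
  have h1 : ∑ x ∈ S, F x.1 * G x.2 ≤ ∑ x ∈ Finset.Icc 1 N ×ˢ Finset.Icc 1 N, F x.1 * G x.2 := by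
    apply Finset.sum_le_sum_of_subset_of_nonneg (Finset.filter_subset _ _)
    intro x _ _
    exact mul_nonneg (hF _) (hG _)
  refine le_trans (le_of_eq ?_) h1
  have hmap : ∀ x ∈ S, x.1 * x.2 ∈ Finset.Icc 1 N := by
    intro x hx
    rw [hS, Finset.mem_filter, Finset.mem_product, Finset.mem_Icc, Finset.mem_Icc] at hx
    rw [Finset.mem_Icc]
    refine ⟨Nat.one_le_iff_ne_zero.mpr ?_, hx.2⟩
    have h1 := hx.1.1.1; have h2 := hx.1.2.1
    positivity
  rw [← Finset.sum_fiberwise_of_maps_to hmap]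
  apply Finset.sum_congr rfl
  intro n hn
  rw [Finset.mem_Icc] at hn
  apply Finset.sum_congr _ (fun _ _ => rfl)
  ext x
  rw [Nat.mem_divisorsAntidiagonal, Finset.mem_filter, hS, Finset.mem_filter, Finset.mem_product,
    Finset.mem_Icc, Finset.mem_Icc]
  constructor
  · rintro ⟨h1, h2⟩
    have hx1 : 1 ≤ x.1 := by
      rcases Nat.eq_zero_or_pos x.1 with h | h
      · rw [h] at h1; omega
      · exact h
    have hx2 : 1 ≤ x.2 := by
      rcases Nat.eq_zero_or_pos x.2 with h | h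
      · rw [h] at h1; omega
      · exact h
    have ha : x.1 ≤ x.1 * x.2 := Nat.le_mul_of_pos_right _ hx2
    have hb : x.2 ≤ x.1 * x.2 := Nat.le_mul_of_pos_left _ hx1
    exact ⟨⟨⟨⟨hx1, by omega⟩, ⟨hx2, by omega⟩⟩, by omega⟩, h1⟩
  · rintro ⟨-, h2⟩
    exact ⟨h2, by omega⟩

/-- the sum of the values over the primes `p ≤ y` -/
lemma sum_gA_le (y : ℝ) (g : ℕ → ℝ) (N : ℕ) :
    ∑ n ∈ Finset.Icc 1 N, (gA y g n) ^ 2 ≤
      ∑ p ∈ (Finset.Icc 1 ⌊y⌋₊).filter Nat.Prime, (g p) ^ 2 := by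
  have e : ∀ n ∈ Finset.Icc 1 N, (gA y g n) ^ 2 = if n.Prime ∧ (n : ℝ) ≤ y then (g n) ^ 2 else 0 := by
    intro n _
    rw [gA_apply]
    split_ifs
    · rfl
    · simp
  rw [Finset.sum_congr rfl e, ← Finset.sum_filter]
  apply Finset.sum_le_sum_of_subset_of_nonneg
  · intro n hn
    rw [Finset.mem_filter, Finset.mem_Icc] at hn ⊢
    exact ⟨⟨hn.1.1, Nat.le_floor hn.2.2⟩, hn.2.1⟩
  · intro n _ _
    positivity

lemma sum_sq_pow (y : ℝ) (g : ℕ → ℝ) (N k : ℕ) :
    ∑ n ∈ Finset.Icc 1 N, (((gA y g) ^ k) n) ^ 2 ≤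
      (k.factorial : ℝ) * (∑ p ∈ (Finset.Icc 1 ⌊y⌋₊).filter Nat.Prime, (g p) ^ 2) ^ k := by
  induction k with
  | zero =>
    rw [pow_zero, pow_zero, Nat.factorial_zero, Nat.cast_one, one_mul]
    have e : ∀ n ∈ Finset.Icc 1 N, ((1 : ArithmeticFunction ℝ) n) ^ 2 = if n = 1 then 1 else 0 := by
      intro n _
      rw [ArithmeticFunction.one_apply]
      split_ifs <;> simp
    rw [Finset.sum_congr rfl e, ← Finset.sum_filter, Finset.sum_const, nsmul_eq_mul, mul_one]
    have : (Finset.filter (fun n => n = 1) (Finset.Icc 1 N)).card ≤ 1 := by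
      apply Finset.card_le_one.mpr
      intro a ha b hb
      rw [Finset.mem_filter] at ha hb
      rw [ha.2, hb.2]
    exact_mod_cast this
  | succ k ih =>
    set B := ∑ p ∈ (Finset.Icc 1 ⌊y⌋₊).filter Nat.Prime, (g p) ^ 2 with hB
    have hB0 : 0 ≤ B := Finset.sum_nonneg fun p _ => sq_nonneg _
    have hH := (Hm_gA y g).pow k
    calc ∑ n ∈ Finset.Icc 1 N, (((gA y g) ^ (k + 1)) n) ^ 2
        ≤ ∑ n ∈ Finset.Icc 1 N, (((k : ℝ) + 1) *
          ∑ x ∈ n.divisorsAntidiagonal, (((gA y g) ^ k) x.1) ^ 2 * (gA y g x.2) ^ 2) := by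
          apply Finset.sum_le_sum
          intro n _
          rw [pow_succ (gA y g) k]
          exact sq_conv_le hH y g n
      _ = ((k : ℝ) + 1) * ∑ n ∈ Finset.Icc 1 N,
          ∑ x ∈ n.divisorsAntidiagonal, (((gA y g) ^ k) x.1) ^ 2 * (gA y g x.2) ^ 2 := by
          rw [Finset.mul_sum]
      _ ≤ ((k : ℝ) + 1) * ((∑ n ∈ Finset.Icc 1 N, (((gA y g) ^ k) n) ^ 2) *
          ∑ n ∈ Finset.Icc 1 N, (gA y g n) ^ 2) := by
          apply mul_le_mul_of_nonneg_left _ (by positivity)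
          exact sum_conv_le (fun n => (((gA y g) ^ k) n) ^ 2) (fun n => (gA y g n) ^ 2)
            (fun n => sq_nonneg _) (fun n => sq_nonneg _) N
      _ ≤ ((k : ℝ) + 1) * (((k.factorial : ℝ) * B ^ k) * B) := by
          apply mul_le_mul_of_nonneg_left _ (by positivity)
          apply mul_le_mul ih (sum_gA_le y g N) (Finset.sum_nonneg fun p _ => sq_nonneg _)
          positivity
      _ = ((k + 1).factorial : ℝ) * B ^ (k + 1) := by
          rw [Nat.factorial_succ]
          push_cast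
          ring

/-! ### domination -/

lemma dom_mul {f g F G : ArithmeticFunction ℝ} (hf : ∀ n, |f n| ≤ F n) (hg : ∀ n, |g n| ≤ G n) (n : ℕ) :
    |(f * g) n| ≤ (F * G) n := by
  rw [ArithmeticFunction.mul_apply, ArithmeticFunction.mul_apply]
  refine (Finset.abs_sum_le_sum_abs _ _).trans ?_
  apply Finset.sum_le_sum
  intro x _
  rw [abs_mul]
  exact mul_le_mul (hf _) (hg _) (abs_nonneg _) ((abs_nonneg _).trans (hf _))

lemma dom_pow {f F : ArithmeticFunction ℝ} (hf : ∀ n, |f n| ≤ F n) (k : ℕ) : ∀ n : ℕ,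
    |(f ^ k) n| ≤ (F ^ k) n := by
  induction k with
  | zero =>
    intro n
    rw [pow_zero, pow_zero, ArithmeticFunction.one_apply]
    split_ifs <;> simp
  | succ k ih =>
    intro n
    rw [pow_succ, pow_succ]
    exact dom_mul ih hf n

lemma nn_mul {f g : ArithmeticFunction ℝ} (hf : ∀ n, 0 ≤ f n) (hg : ∀ n, 0 ≤ g n) (n : ℕ) :
    0 ≤ (f * g) n := by
  rw [ArithmeticFunction.mul_apply]
  exact Finset.sum_nonneg fun x _ => mul_nonneg (hf _) (hg _)

lemma nn_pow {f : ArithmeticFunction ℝ} (hf : ∀ n, 0 ≤ f n) (k : ℕ) : ∀ n : ℕ, 0 ≤ (f ^ k) n := by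
  induction k with
  | zero =>
    intro n
    rw [pow_zero, ArithmeticFunction.one_apply]
    split_ifs <;> simp
  | succ k ih =>
    intro n
    rw [pow_succ]
    exact nn_mul ih hf n

lemma tilt {x w : ArithmeticFunction ℝ} (hx : ∀ n, 0 ≤ x n) (hw : ∀ n, 0 ≤ w n) (k : ℕ) :
    ∃ r : ArithmeticFunction ℝ, (∀ n, 0 ≤ r n) ∧
      (x + w) ^ (k + 1) = x ^ (k + 1) + (k + 1) • (x ^ k * w) + r := by
  induction k with
  | zero =>
    refine ⟨0, fun n => by simp, ?_⟩
    simp
  | succ k ih =>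
    obtain ⟨r, hr, h⟩ := ih
    refine ⟨r * (x + w) + (k + 1) • (x ^ k * w * w), ?_, ?_⟩
    · intro n
      rw [ArithmeticFunction.add_apply, Pool.Agent.Y655.SW.nsmul_app]
      have h1 : 0 ≤ (r * (x + w)) n := nn_mul hr (fun m => by
        rw [ArithmeticFunction.add_apply]; exact add_nonneg (hx m) (hw m)) n
      have h2 : 0 ≤ (x ^ k * w * w) n := nn_mul (nn_mul (nn_pow hx k) hw) hw n
      positivity
    · rw [pow_succ (x + w) (k + 1), h]
      simp only [nsmul_eq_mul]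
      push_cast
      ring

lemma tilt_le {x w : ArithmeticFunction ℝ} (hx : ∀ n, 0 ≤ x n) (hw : ∀ n, 0 ≤ w n) (k n : ℕ) :
    ((k : ℝ) + 1) * (x ^ k * w) n ≤ ((x + w) ^ (k + 1)) n := by
  obtain ⟨r, hr, h⟩ := tilt hx hw k
  rw [h, ArithmeticFunction.add_apply, ArithmeticFunction.add_apply, Pool.Agent.Y655.SW.nsmul_app]
  have h1 := nn_pow hx (k + 1) n
  have h2 := hr n
  push_cast
  linarith

/-! ### sums of functions of different degrees -/

lemma sq_sum_Hm (F : ℕ → ArithmeticFunction ℝ) (d : ℕ) (hF : ∀ j, Hm (j + d) (F j)) (c : ℕ → ℝ) (J n : ℕ) :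
    (∑ j ∈ Finset.range J, c j * F j n) ^ 2 = ∑ j ∈ Finset.range J, (c j) ^ 2 * (F j n) ^ 2 := by
  induction J with
  | zero => simp
  | succ J ih =>
    rw [Finset.sum_range_succ, Finset.sum_range_succ, ← ih]
    have h : (∑ j ∈ Finset.range J, c j * F j n) * F J n = 0 := by
      by_cases hJ : F J n = 0
      · rw [hJ, mul_zero]
      · have h1 := hF J n hJ
        rw [Finset.sum_eq_zero, zero_mul]
        intro j hj
        rw [Finset.mem_range] at hj
        by_cases hj' : F j n = 0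
        · rw [hj', mul_zero]
        · have h2 := hF j n hj'
          omega
    have e : (∑ j ∈ Finset.range J, c j * F j n + c J * F J n) ^ 2 =
        (∑ j ∈ Finset.range J, c j * F j n) ^ 2 +
          2 * c J * ((∑ j ∈ Finset.range J, c j * F j n) * F J n) + (c J) ^ 2 * (F J n) ^ 2 := by ring
    rw [e, h]
    ring

end

end Pool.Agent.Y665.LD
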