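import Pool.Agent.Y665.LD.A

set_option autoImplicit false

/-!
LD project (helper745), job LD-VMS (helper665). Part B: the mean value of a Dirichlet polynomial with real coefficients,
and its length.
-/

namespace Pool.Agent.Y665.LD

open Filter Topology MeasureTheory Complex
open Pool.Agent.Y745.SW Pool.Agent.Y745.LD Pool.Agent.Y41.SW

noncomputable section

/-- the length of the Dirichlet polynomials -/
def NN (c A T : ℝ) : ℕ := ⌊yc c T⌋₊ ^ (KA A T + 1)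

lemma yc_ge (c T : ℝ) (hT : 1 ≤ T) : 1 ≤ yc c T := by
  unfold yc
  apply Real.one_le_exp
  exact Real.rpow_nonneg (Real.log_nonneg hT) _

lemma fl_yc (c T : ℝ) (hT : 1 ≤ T) : 1 ≤ ⌊yc c T⌋₊ := by
  apply Nat.le_floor
  simpa using yc_ge c T hT

lemma mv (hMVB : P_MVB) (h : ℕ → ℝ) (N : ℕ) (T : ℝ) (hT : 0 ≤ T)
    (hN : 8 * (N : ℝ) * (1 + Real.log N) ≤ T) :
    ∫ t in T..(2 * T), ‖DP h N t‖ ^ 2 ≤ 2 * T * ∑ n ∈ Finset.Icc 1 N, (h n) ^ 2 := by
  have h0 := hMVB N T (2 * T) (by linarith) (fun n => (h n : ℂ)) (fun n => (h n : ℂ))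
  set S := ∑ n ∈ Finset.Icc 1 N, (h n) ^ 2 with hS
  have hS0 : 0 ≤ S := Finset.sum_nonneg fun n _ => sq_nonneg _
  have e1 : ∑ n ∈ Finset.Icc 1 N, ‖(h n : ℂ)‖ ^ 2 = S := by
    apply Finset.sum_congr rfl
    intro n _
    rw [Complex.norm_real, Real.norm_eq_abs, sq_abs]
  have e2 : ∑ n ∈ Finset.Icc 1 N, (h n : ℂ) * (starRingEnd ℂ) (h n : ℂ) = (S : ℂ) := by
    rw [hS]
    push_cast
    apply Finset.sum_congr rfl
    intro n _
    rw [Complex.conj_ofReal, sq]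
  have e3 : (∫ t in T..(2 * T), (∑ n ∈ Finset.Icc 1 N, (h n : ℂ) * (n : ℂ) ^ (-(t : ℂ) * I)) *
      (starRingEnd ℂ) (∑ n ∈ Finset.Icc 1 N, (h n : ℂ) * (n : ℂ) ^ (-(t : ℂ) * I))) =
      ((∫ t in T..(2 * T), ‖DP h N t‖ ^ 2 : ℝ) : ℂ) := by
    rw [← intervalIntegral.integral_ofReal]
    apply intervalIntegral.integral_congr
    intro t _
    show DP h N t * (starRingEnd ℂ) (DP h N t) = ((‖DP h N t‖ ^ 2 : ℝ) : ℂ)
    rw [Complex.mul_conj, Complex.normSq_eq_norm_sq]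
  rw [e1, e2, e3, Real.mul_self_sqrt hS0] at h0
  have e4 : ((∫ t in T..(2 * T), ‖DP h N t‖ ^ 2 : ℝ) : ℂ) - ((2 * T - T : ℝ) : ℂ) * (S : ℂ) =
      (((∫ t in T..(2 * T), ‖DP h N t‖ ^ 2) - (2 * T - T) * S : ℝ) : ℂ) := by
    push_cast
    ring
  rw [e4, Complex.norm_real, Real.norm_eq_abs] at h0
  have h1 := (abs_le.mp h0).2
  have h2 : 8 * (N : ℝ) * (1 + Real.log N) * S ≤ T * S := mul_le_mul_of_nonneg_right hN hS0
  nlinarith

lemma NN_ev (c A : ℝ) (hc0 : 0 < c) (hc1 : c < 1) : ∀ᶠ T : ℝ in atTop, 1 ≤ T ∧ 1 ≤ LL T ∧ (1 : ℝ) ≤ Real.log T ∧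
    8 * (NN c A T : ℝ) * (1 + Real.log (NN c A T)) ≤ T := by
  have hlog : Tendsto (fun T : ℝ => Real.log T) atTop atTop := Real.tendsto_log_atTop
  have hLL : Tendsto (fun T : ℝ => LL T) atTop atTop := hlog.comp hlog
  -- `(|A| log L + 2) L^c ≤ L / 4` for large `L`
  have h1 : ∀ᶠ L : ℝ in atTop, (|A| * Real.log L + 2) * L ^ c ≤ L / 4 := by
    have hd : 0 < (1 - c) / 2 := by linarith
    have t1 : Tendsto (fun L : ℝ => Real.log L / L ^ ((1 - c) / 2)) atTop (𝓝 0) :=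
      (isLittleO_log_rpow_atTop hd).tendsto_div_nhds_zero
    have t2 : Tendsto (fun L : ℝ => L ^ (-((1 - c) / 2))) atTop (𝓝 0) := tendsto_rpow_neg_atTop hd
    have t3 : Tendsto (fun L : ℝ => (|A| * (Real.log L / L ^ ((1 - c) / 2)) + 2 * L ^ (-((1 - c) / 2))))
        atTop (𝓝 (|A| * 0 + 2 * 0)) := (t1.const_mul _).add (t2.const_mul _)
    rw [mul_zero, mul_zero, add_zero] at t3
    filter_upwards [t3.eventually_le_const (u := (1 / 4 : ℝ)) (by norm_num), eventually_ge_atTop (1 : ℝ)]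
      with L hL hL1
    have hL0 : 0 < L := by linarith
    have hp : 0 < L ^ ((1 - c) / 2) := Real.rpow_pos_of_pos hL0 _
    rw [Real.rpow_neg hL0.le] at hL
    have e : |A| * (Real.log L / L ^ ((1 - c) / 2)) + 2 * (L ^ ((1 - c) / 2))⁻¹ =
        (|A| * Real.log L + 2) / L ^ ((1 - c) / 2) := by
      field_simp
    rw [e, div_le_iff₀ hp] at hL
    have h3 : L ^ ((1 - c) / 2) * L ^ c ≤ L := by
      rw [← Real.rpow_add hL0]
      calc L ^ ((1 - c) / 2 + c) ≤ L ^ (1 : ℝ) := Real.rpow_le_rpow_of_exponent_le hL1 (by linarith)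
        _ = L := Real.rpow_one L
    have h4 : 0 ≤ L ^ c := Real.rpow_nonneg hL0.le _
    calc (|A| * Real.log L + 2) * L ^ c ≤ (1 / 4 * L ^ ((1 - c) / 2)) * L ^ c :=
          mul_le_mul_of_nonneg_right hL h4
      _ = (1 / 4) * (L ^ ((1 - c) / 2) * L ^ c) := by ring
      _ ≤ (1 / 4) * L := by linarith
      _ = L / 4 := by ring
  have h2 : ∀ᶠ T : ℝ in atTop, 8 * T ^ (1 / 4 : ℝ) * (1 + Real.log T / 4) ≤ T := by
    have t1 : Tendsto (fun T : ℝ => Real.log T / T ^ (3 / 4 : ℝ)) atTop (𝓝 0) :=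
      (isLittleO_log_rpow_atTop (by norm_num)).tendsto_div_nhds_zero
    have t2 : Tendsto (fun T : ℝ => T ^ (-(3 / 4 : ℝ))) atTop (𝓝 0) := tendsto_rpow_neg_atTop (by norm_num)
    have t3 : Tendsto (fun T : ℝ => 8 * (T ^ (-(3 / 4 : ℝ)) + (Real.log T / T ^ (3 / 4 : ℝ)) / 4))
        atTop (𝓝 (8 * (0 + 0 / 4))) := (t2.add (t1.div_const 4)).const_mul 8
    rw [show (8 : ℝ) * (0 + 0 / 4) = 0 by norm_num] at t3
    filter_upwards [t3.eventually_le_const (u := (1 : ℝ)) (by norm_num), eventually_ge_atTop (1 : ℝ)]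
      with T hT hT1
    have hT0 : 0 < T := by linarith
    have hp : 0 < T ^ (3 / 4 : ℝ) := Real.rpow_pos_of_pos hT0 _
    rw [Real.rpow_neg hT0.le] at hT
    have e : 8 * ((T ^ (3 / 4 : ℝ))⁻¹ + Real.log T / T ^ (3 / 4 : ℝ) / 4) =
        8 * (1 + Real.log T / 4) / T ^ (3 / 4 : ℝ) := by
      field_simp
    rw [e, div_le_iff₀ hp, one_mul] at hT
    have h3 : T ^ (1 / 4 : ℝ) * T ^ (3 / 4 : ℝ) = T := by
      rw [← Real.rpow_add hT0]
      norm_num
    have h4 : 0 ≤ T ^ (1 / 4 : ℝ) := Real.rpow_nonneg hT0.le _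
    calc 8 * T ^ (1 / 4 : ℝ) * (1 + Real.log T / 4) = T ^ (1 / 4 : ℝ) * (8 * (1 + Real.log T / 4)) := by ring
      _ ≤ T ^ (1 / 4 : ℝ) * T ^ (3 / 4 : ℝ) := mul_le_mul_of_nonneg_left hT h4
      _ = T := h3
  filter_upwards [hlog.eventually h1, h2, eventually_ge_atTop (1 : ℝ), hLL.eventually_ge_atTop 1,
    hlog.eventually_ge_atTop 1] with T hT1 hT2 hT3 hT4 hT5
  refine ⟨hT3, hT4, hT5, ?_⟩
  have hT0 : 0 < T := by linarith
  have hy1 := yc_ge c T hT3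
  have hfl := fl_yc c T hT3
  have hN1 : 1 ≤ NN c A T := Nat.one_le_iff_ne_zero.mpr (by unfold NN; positivity)
  have hN1' : (1 : ℝ) ≤ (NN c A T : ℝ) := by exact_mod_cast hN1
  have hLc : 0 ≤ Real.log T ^ c := Real.rpow_nonneg (by linarith) _
  have hK : ((KA A T : ℕ) : ℝ) ≤ |A| * LL T + 1 := by
    have hAL : A * LL T ≤ |A| * LL T := mul_le_mul_of_nonneg_right (le_abs_self A) (by linarith)
    have h0 : 0 ≤ |A| * LL T := mul_nonneg (abs_nonneg A) (by linarith)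
    calc ((KA A T : ℕ) : ℝ) = ((⌈A * LL T⌉₊ : ℕ) : ℝ) := rfl
      _ ≤ ((⌈|A| * LL T⌉₊ : ℕ) : ℝ) := by exact_mod_cast Nat.ceil_mono hAL
      _ ≤ |A| * LL T + 1 := (Nat.ceil_lt_add_one h0).le
  have hlogN : Real.log (NN c A T) ≤ Real.log T / 4 := by
    have e : Real.log (NN c A T) = ((KA A T : ℝ) + 1) * Real.log (⌊yc c T⌋₊ : ℝ) := by
      unfold NN
      push_cast
      rw [Real.log_pow]
      push_cast
      ring
    have h5 : Real.log (⌊yc c T⌋₊ : ℝ) ≤ Real.log T ^ c := by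
      have hfl' : (0 : ℝ) < (⌊yc c T⌋₊ : ℝ) := by exact_mod_cast hfl
      calc Real.log (⌊yc c T⌋₊ : ℝ) ≤ Real.log (yc c T) :=
            Real.log_le_log hfl' (Nat.floor_le (by linarith))
        _ = Real.log T ^ c := by unfold yc; rw [Real.log_exp]
    rw [e]
    calc ((KA A T : ℝ) + 1) * Real.log (⌊yc c T⌋₊ : ℝ) ≤ ((KA A T : ℝ) + 1) * Real.log T ^ c :=
          mul_le_mul_of_nonneg_left h5 (by positivity)
      _ ≤ (|A| * LL T + 2) * Real.log T ^ c := mul_le_mul_of_nonneg_right (by linarith) hLc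
      _ ≤ Real.log T / 4 := hT1
  have hN2 : (NN c A T : ℝ) ≤ T ^ (1 / 4 : ℝ) := by
    have hpos : (0 : ℝ) < (NN c A T : ℝ) := by linarith
    rw [← Real.exp_log hpos, Real.rpow_def_of_pos hT0]
    apply Real.exp_le_exp.mpr
    linarith
  have hl0 : 0 ≤ Real.log (NN c A T : ℝ) := Real.log_nonneg hN1'
  have h4 : 0 ≤ T ^ (1 / 4 : ℝ) := Real.rpow_nonneg hT0.le _
  calc 8 * (NN c A T : ℝ) * (1 + Real.log (NN c A T)) ≤ 8 * T ^ (1 / 4 : ℝ) * (1 + Real.log T / 4) := by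
        apply mul_le_mul (by linarith) (by linarith) (by linarith) (by linarith)
    _ ≤ T := hT2

/-- the coefficients of a Dirichlet polynomial of several degrees -/
lemma DP_sum (F : ℕ → ArithmeticFunction ℝ) (c : ℕ → ℝ) (J N : ℕ) (t : ℝ) :
    ∑ j ∈ Finset.range J, (c j : ℂ) * DP (F j) N t =
      DP (fun n => ∑ j ∈ Finset.range J, c j * F j n) N t := by
  unfold DP
  simp only [Finset.mul_sum]
  rw [Finset.sum_comm]
  apply Finset.sum_congr rfl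
  intro n _
  push_cast
  rw [Finset.sum_mul]
  apply Finset.sum_congr rfl
  intro j _
  ring

lemma cont_DP (f : ℕ → ℝ) (N : ℕ) : Continuous (fun t : ℝ => DP f N t) := by
  unfold DP
  apply continuous_finsetSum
  intro n hn
  rw [Finset.mem_Icc] at hn
  apply Continuous.mul continuous_const
  have hn0 : (n : ℂ) ≠ 0 := by
    have : n ≠ 0 := by omega
    exact_mod_cast this
  apply Continuous.const_cpow
  · fun_prop
  · left; exact hn0

end

end Pool.Agent.Y665.LD
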