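import Pool.Agent.Y665.LD.B

set_option autoImplicit false

/-!
LD project (helper745), job LD-VMS (helper665). Part C: the coefficients of the product of the truncated exponential with
a sum over the small primes.
-/

namespace Pool.Agent.Y665.LD

open Filter Topology MeasureTheory Complex
open Pool.Agent.Y745.SW Pool.Agent.Y745.LD Pool.Agent.Y41.SW

noncomputable section

lemma kP (κ c T t : ℝ) : (κ : ℂ) * Pc c T t =
    DP (gA (yc c T) (fun n => κ * (Real.sqrt n)⁻¹)) ⌊yc c T⌋₊ t := by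
  unfold Pc
  rw [Py_eq]
  unfold DP
  rw [Finset.mul_sum]
  apply Finset.sum_congr rfl
  intro n _
  have e : gA (yc c T) (fun n => κ * (Real.sqrt n)⁻¹) n = κ * pA (yc c T) n := by
    rw [gA_apply, Pool.Agent.Y655.SW.pA_apply]
    split_ifs
    · rfl
    · rw [mul_zero]
  rw [e]
  push_cast
  ring

lemma bP (c T t : ℝ) (b : ℕ → ℝ) :
    ∑ p ∈ Pr c T, (b p : ℂ) * (p : ℂ) ^ (-(t : ℂ) * I) = DP (gA (yc c T) b) ⌊yc c T⌋₊ t := by
  unfold DP Pr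
  rw [Finset.sum_filter]
  apply Finset.sum_congr rfl
  intro n hn
  rw [Finset.mem_Icc] at hn
  have hn0 : n ≠ 0 := by omega
  have hny : (n : ℝ) ≤ yc c T := (Nat.le_floor_iff' hn0).mp hn.2
  rw [gA_apply]
  by_cases hp : n.Prime
  · rw [if_pos hp, if_pos ⟨hp, hny⟩]
  · rw [if_neg hp, if_neg (fun h => hp h.1)]; simp

lemma tex_mul (K X : ℕ) (hX : 1 ≤ X) (x β : ArithmeticFunction ℝ) (hx : ∀ n, X < n → x n = 0)
    (hβ : ∀ n, X < n → β n = 0) (t : ℝ) :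
    tex K (DP x X t) * DP β X t =
      DP (fun n => ∑ j ∈ Finset.range (K + 1), ((j.factorial : ℝ))⁻¹ * (x ^ j * β) n) (X ^ (K + 1)) t := by
  rw [← DP_sum (fun j => x ^ j * β) (fun j => ((j.factorial : ℝ))⁻¹)]
  unfold tex
  rw [Finset.sum_mul]
  apply Finset.sum_congr rfl
  intro j hj
  rw [Finset.mem_range] at hj
  have h1 := supp_pow x X hx j
  have h2 := supp_mul (x ^ j) β (X ^ j) X h1 hβ
  have h3 : X ^ j * X ≤ X ^ (K + 1) := by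
    rw [← pow_succ]
    exact Nat.pow_le_pow_right hX (by omega)
  show DP (⇑x) X t ^ j / (j.factorial : ℂ) * DP (⇑β) X t = _
  rw [DP_pow x X hx t j, ← DP_extend _ _ _ h3 h2 t, ← DP_mul (x ^ j) β (X ^ j) X h1 hβ t]
  push_cast
  ring

/-- the sum of the squares of the coefficients, for VMS -/
lemma coef_VMS (κ y τ : ℝ) (hτ : 0 < τ) (b : ℕ → ℝ) (K N : ℕ) :
    ∑ n ∈ Finset.Icc 1 N, (∑ j ∈ Finset.range (K + 1), ((j.factorial : ℝ))⁻¹ *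
      ((gA y (fun n => κ * (Real.sqrt n)⁻¹)) ^ j * gA y b) n) ^ 2 ≤
      (τ ^ 2)⁻¹ * Real.exp (∑ p ∈ (Finset.Icc 1 ⌊y⌋₊).filter Nat.Prime,
        (|κ| * (Real.sqrt p)⁻¹ + τ * |b p|) ^ 2) := by
  set x' := gA y (fun n => κ * (Real.sqrt n)⁻¹) with hx'
  set β := gA y b with hβ
  set x := gA y (fun n => |κ| * (Real.sqrt n)⁻¹) with hx
  set w := gA y (fun n => τ * |b n|) with hw
  set Z := gA y (fun n => |κ| * (Real.sqrt n)⁻¹ + τ * |b n|) with hZ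
  set B := ∑ p ∈ (Finset.Icc 1 ⌊y⌋₊).filter Nat.Prime, (|κ| * (Real.sqrt p)⁻¹ + τ * |b p|) ^ 2 with hB
  have hB0 : 0 ≤ B := Finset.sum_nonneg fun p _ => sq_nonneg _
  have hxw : x + w = Z := by
    ext n
    rw [ArithmeticFunction.add_apply, hx, hw, hZ, gA_apply, gA_apply, gA_apply]
    split_ifs
    · rfl
    · rw [add_zero]
  have hx0 : ∀ n, 0 ≤ x n := by
    intro n
    rw [hx, gA_apply]
    split_ifs
    · positivity
    · exact le_refl 0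
  have hw0 : ∀ n, 0 ≤ w n := by
    intro n
    rw [hw, gA_apply]
    split_ifs
    · positivity
    · exact le_refl 0
  have hxx : ∀ n, |x' n| ≤ x n := by
    intro n
    rw [hx, hx', gA_apply, gA_apply]
    split_ifs
    · rw [abs_mul, abs_of_nonneg (by positivity : (0:ℝ) ≤ (Real.sqrt n)⁻¹)]
    · simp
  have hββ : ∀ n, |(τ • β : ℕ → ℝ) n| ≤ w n := by
    intro n
    show |τ * β n| ≤ w n
    rw [hw, hβ, gA_apply, gA_apply]
    split_ifs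
    · rw [abs_mul, abs_of_pos hτ]
    · simp
  have hβw : ∀ n, |β n| ≤ τ⁻¹ * w n := by
    intro n
    have h := hββ n
    have h' : |τ * β n| ≤ w n := h
    rw [abs_mul, abs_of_pos hτ] at h'
    rw [le_inv_mul_iff₀ hτ]
    exact h'
  have hterm : ∀ j n : ℕ, ((x' ^ j * β) n) ^ 2 ≤ (τ ^ 2)⁻¹ * (((j : ℝ) + 1) ^ 2)⁻¹ * ((Z ^ (j + 1)) n) ^ 2 := by
    intro j n
    have h1 : |(x' ^ j * β) n| ≤ τ⁻¹ * (x ^ j * w) n := by
      rw [ArithmeticFunction.mul_apply, ArithmeticFunction.mul_apply, Finset.mul_sum]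
      refine (Finset.abs_sum_le_sum_abs _ _).trans ?_
      apply Finset.sum_le_sum
      intro z _
      rw [abs_mul]
      calc |(x' ^ j) z.1| * |β z.2| ≤ (x ^ j) z.1 * (τ⁻¹ * w z.2) :=
            mul_le_mul (dom_pow hxx j z.1) (hβw z.2) (abs_nonneg _)
              ((abs_nonneg _).trans (dom_pow hxx j z.1))
        _ = τ⁻¹ * ((x ^ j) z.1 * w z.2) := by ring
    have h2 : ((j : ℝ) + 1) * (x ^ j * w) n ≤ (Z ^ (j + 1)) n := by
      rw [← hxw]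
      exact tilt_le hx0 hw0 j n
    have hj : (0 : ℝ) < (j : ℝ) + 1 := by positivity
    have h3 : (x ^ j * w) n ≤ ((j : ℝ) + 1)⁻¹ * (Z ^ (j + 1)) n := by
      rw [le_inv_mul_iff₀ hj]
      exact h2
    have h4 : |(x' ^ j * β) n| ≤ τ⁻¹ * (((j : ℝ) + 1)⁻¹ * (Z ^ (j + 1)) n) :=
      h1.trans (mul_le_mul_of_nonneg_left h3 (by positivity))
    calc ((x' ^ j * β) n) ^ 2 = |(x' ^ j * β) n| ^ 2 := (sq_abs _).symm
      _ ≤ (τ⁻¹ * (((j : ℝ) + 1)⁻¹ * (Z ^ (j + 1)) n)) ^ 2 := pow_le_pow_left₀ (abs_nonneg _) h4 2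
      _ = (τ ^ 2)⁻¹ * (((j : ℝ) + 1) ^ 2)⁻¹ * ((Z ^ (j + 1)) n) ^ 2 := by
          rw [mul_pow, mul_pow, inv_pow, inv_pow, mul_assoc]
  have hH : ∀ j : ℕ, Hm (j + 1) (x' ^ j * β) := fun j => ((Hm_gA y _).pow j).mul (Hm_gA y b)
  calc ∑ n ∈ Finset.Icc 1 N, (∑ j ∈ Finset.range (K + 1), ((j.factorial : ℝ))⁻¹ * (x' ^ j * β) n) ^ 2
      = ∑ n ∈ Finset.Icc 1 N, ∑ j ∈ Finset.range (K + 1), (((j.factorial : ℝ))⁻¹) ^ 2 * ((x' ^ j * β) n) ^ 2 := by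
        apply Finset.sum_congr rfl
        intro n _
        exact sq_sum_Hm (fun j => x' ^ j * β) 1 hH (fun j => ((j.factorial : ℝ))⁻¹) (K + 1) n
    _ = ∑ j ∈ Finset.range (K + 1), (((j.factorial : ℝ))⁻¹) ^ 2 * ∑ n ∈ Finset.Icc 1 N, ((x' ^ j * β) n) ^ 2 := by
        rw [Finset.sum_comm]
        apply Finset.sum_congr rfl
        intro j _
        rw [Finset.mul_sum]
    _ ≤ ∑ j ∈ Finset.range (K + 1), (τ ^ 2)⁻¹ * (B ^ (j + 1) / ((j + 1).factorial : ℝ)) := by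
        apply Finset.sum_le_sum
        intro j _
        have h1 : ∑ n ∈ Finset.Icc 1 N, ((x' ^ j * β) n) ^ 2 ≤
            (τ ^ 2)⁻¹ * (((j : ℝ) + 1) ^ 2)⁻¹ * (((j + 1).factorial : ℝ) * B ^ (j + 1)) := by
          calc ∑ n ∈ Finset.Icc 1 N, ((x' ^ j * β) n) ^ 2
              ≤ ∑ n ∈ Finset.Icc 1 N, (τ ^ 2)⁻¹ * (((j : ℝ) + 1) ^ 2)⁻¹ * ((Z ^ (j + 1)) n) ^ 2 :=
                Finset.sum_le_sum fun n _ => hterm j n
            _ = (τ ^ 2)⁻¹ * (((j : ℝ) + 1) ^ 2)⁻¹ * ∑ n ∈ Finset.Icc 1 N, ((Z ^ (j + 1)) n) ^ 2 := by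
                rw [Finset.mul_sum]
            _ ≤ _ := by
                apply mul_le_mul_of_nonneg_left _ (by positivity)
                exact sum_sq_pow y _ N (j + 1)
        calc (((j.factorial : ℝ))⁻¹) ^ 2 * ∑ n ∈ Finset.Icc 1 N, ((x' ^ j * β) n) ^ 2
            ≤ (((j.factorial : ℝ))⁻¹) ^ 2 *
              ((τ ^ 2)⁻¹ * (((j : ℝ) + 1) ^ 2)⁻¹ * (((j + 1).factorial : ℝ) * B ^ (j + 1))) :=
              mul_le_mul_of_nonneg_left h1 (by positivity)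
          _ = (τ ^ 2)⁻¹ * (B ^ (j + 1) / ((j + 1).factorial : ℝ)) := by
              have hf : (((j + 1).factorial : ℕ) : ℝ) = ((j : ℝ) + 1) * (j.factorial : ℝ) := by
                rw [Nat.factorial_succ]; push_cast; ring
              have hf0 : (j.factorial : ℝ) ≠ 0 := by exact_mod_cast (Nat.factorial_pos j).ne'
              have hj0 : ((j : ℝ) + 1) ≠ 0 := by positivity
              rw [hf]
              field_simp
    _ = (τ ^ 2)⁻¹ * ∑ j ∈ Finset.range (K + 1), (B ^ (j + 1) / ((j + 1).factorial : ℝ)) := by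
        rw [Finset.mul_sum]
    _ ≤ (τ ^ 2)⁻¹ * Real.exp B := by
        apply mul_le_mul_of_nonneg_left _ (by positivity)
        have h1 := Real.sum_le_exp_of_nonneg hB0 (K + 2)
        rw [Finset.sum_range_succ'] at h1
        have h2 : (0:ℝ) ≤ B ^ 0 / ((0 : ℕ).factorial : ℝ) := by positivity
        linarith

lemma B_expand (κ τ : ℝ) (b : ℕ → ℝ) (P : Finset ℕ) (hP : ∀ p ∈ P, p.Prime) :
    ∑ p ∈ P, (|κ| * (Real.sqrt p)⁻¹ + τ * |b p|) ^ 2 =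
      κ ^ 2 * (∑ p ∈ P, (1 / (p : ℝ))) + 2 * τ * (|κ| * ∑ p ∈ P, |b p| / Real.sqrt p) +
        τ ^ 2 * ∑ p ∈ P, |b p| ^ 2 := by
  rw [Finset.mul_sum, Finset.mul_sum, Finset.mul_sum, Finset.mul_sum, ← Finset.sum_add_distrib,
    ← Finset.sum_add_distrib]
  apply Finset.sum_congr rfl
  intro p hp
  have hp0 : (0 : ℝ) < p := by exact_mod_cast (hP p hp).pos
  have hs : (Real.sqrt p)⁻¹ ^ 2 = 1 / (p : ℝ) := by
    rw [inv_pow, Real.sq_sqrt hp0.le, one_div]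
  have e : (|κ| * (Real.sqrt p)⁻¹ + τ * |b p|) ^ 2 = |κ| ^ 2 * ((Real.sqrt p)⁻¹ ^ 2) +
      2 * τ * (|κ| * (|b p| * (Real.sqrt p)⁻¹)) + τ ^ 2 * |b p| ^ 2 := by ring
  rw [e, hs, sq_abs, div_eq_mul_inv (|b p|)]

/-- the sum of the squares of the coefficients, for VMS, with the best parameter -/
lemma coef_VMS2 (κ y : ℝ) (b : ℕ → ℝ) (K N : ℕ)
    (hb : 0 < ∑ p ∈ (Finset.Icc 1 ⌊y⌋₊).filter Nat.Prime, |b p| ^ 2) :
    ∑ n ∈ Finset.Icc 1 N, (∑ j ∈ Finset.range (K + 1), ((j.factorial : ℝ))⁻¹ *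
      ((gA y (fun n => κ * (Real.sqrt n)⁻¹)) ^ j * gA y b) n) ^ 2 ≤
      2 * (κ ^ 2 + 1) * Real.exp 3 *
        ((∑ p ∈ (Finset.Icc 1 ⌊y⌋₊).filter Nat.Prime, |b p| / Real.sqrt p) ^ 2 +
          ∑ p ∈ (Finset.Icc 1 ⌊y⌋₊).filter Nat.Prime, |b p| ^ 2) *
        Real.exp (κ ^ 2 * ∑ p ∈ (Finset.Icc 1 ⌊y⌋₊).filter Nat.Prime, (1 / (p : ℝ))) := by
  set P := (Finset.Icc 1 ⌊y⌋₊).filter Nat.Prime with hP
  set α := ∑ p ∈ P, |b p| / Real.sqrt p with hα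
  set σ2 := ∑ p ∈ P, |b p| ^ 2 with hσ2
  set s := ∑ p ∈ P, (1 / (p : ℝ)) with hs
  have hα0 : 0 ≤ α := Finset.sum_nonneg fun p _ => by positivity
  set σ := Real.sqrt σ2 with hσ
  have hσ0 : 0 < σ := Real.sqrt_pos.mpr hb
  have hσs : σ ^ 2 = σ2 := Real.sq_sqrt hb.le
  set D := |κ| * α + σ with hD
  have hκα : 0 ≤ |κ| * α := by positivity
  have hD0 : 0 < D := by linarith
  have h1 := coef_VMS κ y D⁻¹ (inv_pos.mpr hD0) b K N
  rw [← hP, B_expand κ D⁻¹ b P (fun p hp => (Finset.mem_filter.mp hp).2), ← hα, ← hσ2, ← hs] at h1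
  refine h1.trans ?_
  have e1 : D⁻¹ * (|κ| * α) ≤ 1 := by
    rw [inv_mul_le_iff₀ hD0]; linarith
  have e2 : D⁻¹ ^ 2 * σ2 ≤ 1 := by
    rw [← hσs, ← mul_pow]
    have : D⁻¹ * σ ≤ 1 := by rw [inv_mul_le_iff₀ hD0]; linarith
    have h0 : 0 ≤ D⁻¹ * σ := by positivity
    nlinarith
  have e3 : Real.exp (κ ^ 2 * s + 2 * D⁻¹ * (|κ| * α) + D⁻¹ ^ 2 * σ2) ≤ Real.exp 3 * Real.exp (κ ^ 2 * s) := by
    rw [← Real.exp_add]
    apply Real.exp_le_exp.mpr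
    nlinarith
  have e4 : ((D⁻¹) ^ 2)⁻¹ ≤ 2 * (κ ^ 2 + 1) * (α ^ 2 + σ2) := by
    rw [inv_pow, inv_inv, ← hσs, hD]
    have h3 : (|κ| * α + σ) ^ 2 ≤ 2 * (|κ| * α) ^ 2 + 2 * σ ^ 2 := by nlinarith [sq_nonneg (|κ| * α - σ)]
    have h4 : (|κ| * α) ^ 2 = κ ^ 2 * α ^ 2 := by rw [mul_pow, sq_abs]
    have h5 : 0 ≤ κ ^ 2 * σ ^ 2 := by positivity
    have h6 : 0 ≤ α ^ 2 := sq_nonneg α
    nlinarith
  calc ((D⁻¹) ^ 2)⁻¹ * Real.exp (κ ^ 2 * s + 2 * D⁻¹ * (|κ| * α) + D⁻¹ ^ 2 * σ2)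
      ≤ (2 * (κ ^ 2 + 1) * (α ^ 2 + σ2)) * (Real.exp 3 * Real.exp (κ ^ 2 * s)) :=
        mul_le_mul e4 e3 (Real.exp_pos _).le (by positivity)
    _ = 2 * (κ ^ 2 + 1) * Real.exp 3 * (α ^ 2 + σ2) * Real.exp (κ ^ 2 * s) := by ring

end

end Pool.Agent.Y665.LD
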