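import Pool.Agent.Y665.LD.C

set_option autoImplicit false

/-!
LD project (helper745), job LD-VMS (helper665). Part D: the coefficients of the product of the truncated exponential with
the centred sum over the small primes.
-/

namespace Pool.Agent.Y665.LD

open Filter Topology MeasureTheory Complex
open Pool.Agent.Y745.SW Pool.Agent.Y745.LD Pool.Agent.Y41.SW

noncomputable section

/-- the coefficients -/
def dK (κ s : ℝ) (K j : ℕ) : ℝ :=
  (if j = 0 then 0 else κ ^ (j - 1) / ((j - 1).factorial : ℝ)) -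
    (if j < K + 1 then κ ^ (j + 1) * s / (j.factorial : ℝ) else 0)

lemma tex_centred (κ s : ℝ) (K : ℕ) (z : ℂ) :
    tex K ((κ : ℂ) * z) * (z - ((κ * s : ℝ) : ℂ)) = ∑ j ∈ Finset.range (K + 2), ((dK κ s K j : ℝ) : ℂ) * z ^ j := by
  have h1 : ∑ j ∈ Finset.range (K + 2), (((if j = 0 then 0 else κ ^ (j - 1) / ((j - 1).factorial : ℝ)) : ℝ) : ℂ) * z ^ j
      = ∑ j ∈ Finset.range (K + 1), (κ : ℂ) ^ j / (j.factorial : ℂ) * z ^ (j + 1) := by
    rw [Finset.sum_range_succ']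
    simp
  have h2 : ∑ j ∈ Finset.range (K + 2), (((if j < K + 1 then κ ^ (j + 1) * s / (j.factorial : ℝ) else 0) : ℝ) : ℂ) * z ^ j
      = ∑ j ∈ Finset.range (K + 1), (κ : ℂ) ^ (j + 1) * s / (j.factorial : ℂ) * z ^ j := by
    rw [Finset.sum_range_succ, if_neg (by omega)]
    rw [Complex.ofReal_zero, zero_mul, add_zero]
    apply Finset.sum_congr rfl
    intro j hj
    rw [Finset.mem_range] at hj
    rw [if_pos hj]
    push_cast
    ring
  have h3 : ∑ j ∈ Finset.range (K + 2), ((dK κ s K j : ℝ) : ℂ) * z ^ j =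
      ∑ j ∈ Finset.range (K + 2), (((if j = 0 then 0 else κ ^ (j - 1) / ((j - 1).factorial : ℝ)) : ℝ) : ℂ) * z ^ j -
      ∑ j ∈ Finset.range (K + 2), (((if j < K + 1 then κ ^ (j + 1) * s / (j.factorial : ℝ) else 0) : ℝ) : ℂ) * z ^ j := by
    rw [← Finset.sum_sub_distrib]
    apply Finset.sum_congr rfl
    intro j _
    unfold dK
    rw [Complex.ofReal_sub]
    ring
  rw [h3, h1, h2, ← Finset.sum_sub_distrib]
  unfold tex
  rw [Finset.sum_mul]
  apply Finset.sum_congr rfl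
  intro j _
  push_cast
  rw [mul_pow]
  ring

lemma ident (κ s : ℝ) (K : ℕ) :
    ∑ j ∈ Finset.range (K + 1), ((if j = 0 then 0 else κ ^ (j - 1) / ((j - 1).factorial : ℝ)) -
      κ ^ (j + 1) * s / (j.factorial : ℝ)) ^ 2 * ((j.factorial : ℝ) * s ^ j) +
      (κ ^ K / (K.factorial : ℝ)) ^ 2 * (((K + 1).factorial : ℝ) * s ^ (K + 1)) =
    s * (∑ m ∈ Finset.range (K + 1), (κ ^ 2 * s) ^ m / (m.factorial : ℝ) +
      (κ ^ 2 * s) ^ (K + 1) / (K.factorial : ℝ)) := by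
  induction K with
  | zero =>
    simp
    ring
  | succ K ih =>
    rw [Finset.sum_range_succ, Finset.sum_range_succ _ (K + 1)]
    rw [if_neg (Nat.succ_ne_zero K), Nat.add_sub_cancel]
    have hF : ((K.factorial : ℕ) : ℝ) ≠ 0 := by exact_mod_cast (Nat.factorial_pos K).ne'
    have hK1 : ((K : ℝ) + 1) ≠ 0 := by positivity
    have hK2 : ((K : ℝ) + 2) ≠ 0 := by positivity
    have hf1 : (((K + 1).factorial : ℕ) : ℝ) = ((K : ℝ) + 1) * (K.factorial : ℝ) := by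
      rw [Nat.factorial_succ]; push_cast; ring
    have hf2 : (((K + 1 + 1).factorial : ℕ) : ℝ) = ((K : ℝ) + 2) * (((K : ℝ) + 1) * (K.factorial : ℝ)) := by
      rw [Nat.factorial_succ, Nat.factorial_succ]; push_cast; ring
    rw [hf1] at ih
    rw [hf1, hf2]
    have key : (κ ^ K / (K.factorial : ℝ) - κ ^ (K + 1 + 1) * s / (((K : ℝ) + 1) * (K.factorial : ℝ))) ^ 2 *
          ((((K : ℝ) + 1) * (K.factorial : ℝ)) * s ^ (K + 1)) +
        (κ ^ (K + 1) / (((K : ℝ) + 1) * (K.factorial : ℝ))) ^ 2 *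
          ((((K : ℝ) + 2) * (((K : ℝ) + 1) * (K.factorial : ℝ))) * s ^ (K + 1 + 1)) -
        (κ ^ K / (K.factorial : ℝ)) ^ 2 * ((((K : ℝ) + 1) * (K.factorial : ℝ)) * s ^ (K + 1)) =
        s * ((κ ^ 2 * s) ^ (K + 1) / (((K : ℝ) + 1) * (K.factorial : ℝ)) +
          (κ ^ 2 * s) ^ (K + 1 + 1) / (((K : ℝ) + 1) * (K.factorial : ℝ)) -
          (κ ^ 2 * s) ^ (K + 1) / (K.factorial : ℝ)) := by
      field_simp
      ring
    linear_combination ih + key

lemma sum_dK (κ s : ℝ) (K : ℕ) :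
    ∑ j ∈ Finset.range (K + 2), (dK κ s K j) ^ 2 * ((j.factorial : ℝ) * s ^ j) =
    s * (∑ m ∈ Finset.range (K + 1), (κ ^ 2 * s) ^ m / (m.factorial : ℝ) +
      (κ ^ 2 * s) ^ (K + 1) / (K.factorial : ℝ)) := by
  rw [← ident, Finset.sum_range_succ]
  congr 1
  · apply Finset.sum_congr rfl
    intro j hj
    rw [Finset.mem_range] at hj
    unfold dK
    rw [if_pos hj]
  · unfold dK
    rw [if_neg (Nat.succ_ne_zero K), if_neg (lt_irrefl _), Nat.add_sub_cancel, sub_zero]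

lemma tail_le (l : ℝ) (hl : 0 ≤ l) (K : ℕ) (hK : 2 * Real.exp 1 * l ≤ K) :
    l ^ (K + 1) / (K.factorial : ℝ) ≤ 1 := by
  have he : 1 ≤ Real.exp 1 := Real.one_le_exp (by norm_num)
  have hF : (0 : ℝ) < (K.factorial : ℝ) := by exact_mod_cast Nat.factorial_pos K
  have h1 : (K : ℝ) ^ K / (K.factorial : ℝ) ≤ Real.exp K :=
    Real.pow_div_factorial_le_exp (K : ℝ) (by positivity) K
  rw [div_le_iff₀ hF] at h1
  have h2 : (2 * Real.exp 1 * l) ^ K ≤ (K : ℝ) ^ K := pow_le_pow_left₀ (by positivity) hK K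
  have h3 : Real.exp (K : ℝ) = Real.exp 1 ^ K := by
    rw [← Real.exp_nat_mul, mul_one]
  have h4 : (2 : ℝ) ^ K * l ^ K ≤ (K.factorial : ℝ) := by
    have h5 : Real.exp 1 ^ K * (2 ^ K * l ^ K) ≤ Real.exp 1 ^ K * (K.factorial : ℝ) := by
      calc Real.exp 1 ^ K * (2 ^ K * l ^ K) = (2 * Real.exp 1 * l) ^ K := by
            rw [mul_pow, mul_pow]; ring
        _ ≤ (K : ℝ) ^ K := h2
        _ ≤ Real.exp (K : ℝ) * (K.factorial : ℝ) := h1
        _ = Real.exp 1 ^ K * (K.factorial : ℝ) := by rw [h3]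
    exact le_of_mul_le_mul_left h5 (by positivity)
  have h6 : l ≤ (2 : ℝ) ^ K := by
    have h7 : l ≤ (K : ℝ) := by nlinarith
    have h8 : (K : ℝ) ≤ (2 : ℝ) ^ K := by exact_mod_cast (Nat.lt_two_pow_self).le
    linarith
  rw [div_le_one hF, pow_succ, mul_comm]
  calc l * l ^ K ≤ (2 : ℝ) ^ K * l ^ K := mul_le_mul_of_nonneg_right h6 (by positivity)
    _ ≤ (K.factorial : ℝ) := h4

/-- the sum of the squares of the coefficients, for VMT -/
lemma coef_VMT (κ y : ℝ) (K N : ℕ)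
    (hK : 2 * Real.exp 1 * (κ ^ 2 * ∑ p ∈ (Finset.Icc 1 ⌊y⌋₊).filter Nat.Prime, (1 / (p : ℝ))) ≤ K) :
    ∑ n ∈ Finset.Icc 1 N, (∑ j ∈ Finset.range (K + 2),
      dK κ (∑ p ∈ (Finset.Icc 1 ⌊y⌋₊).filter Nat.Prime, (1 / (p : ℝ))) K j * (pA y ^ j) n) ^ 2 ≤
      2 * (∑ p ∈ (Finset.Icc 1 ⌊y⌋₊).filter Nat.Prime, (1 / (p : ℝ))) *
        Real.exp (κ ^ 2 * ∑ p ∈ (Finset.Icc 1 ⌊y⌋₊).filter Nat.Prime, (1 / (p : ℝ))) := by
  set s := ∑ p ∈ (Finset.Icc 1 ⌊y⌋₊).filter Nat.Prime, (1 / (p : ℝ)) with hs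
  have hs0 : 0 ≤ s := Finset.sum_nonneg fun p _ => by positivity
  have hl0 : 0 ≤ κ ^ 2 * s := by positivity
  have hpA : pA y = gA y (fun n => (Real.sqrt n)⁻¹) := rfl
  have hsq : ∑ p ∈ (Finset.Icc 1 ⌊y⌋₊).filter Nat.Prime, ((Real.sqrt p)⁻¹) ^ 2 = s := by
    apply Finset.sum_congr rfl
    intro p _
    rw [inv_pow, Real.sq_sqrt (Nat.cast_nonneg p), one_div]
  have hH : ∀ j : ℕ, Hm (j + 0) (pA y ^ j) := fun j => by
    rw [hpA, add_zero]; exact (Hm_gA y _).pow j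
  calc ∑ n ∈ Finset.Icc 1 N, (∑ j ∈ Finset.range (K + 2), dK κ s K j * (pA y ^ j) n) ^ 2
      = ∑ n ∈ Finset.Icc 1 N, ∑ j ∈ Finset.range (K + 2), (dK κ s K j) ^ 2 * ((pA y ^ j) n) ^ 2 := by
        apply Finset.sum_congr rfl
        intro n _
        exact sq_sum_Hm (fun j => pA y ^ j) 0 hH (fun j => dK κ s K j) (K + 2) n
    _ = ∑ j ∈ Finset.range (K + 2), (dK κ s K j) ^ 2 * ∑ n ∈ Finset.Icc 1 N, ((pA y ^ j) n) ^ 2 := by
        rw [Finset.sum_comm]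
        apply Finset.sum_congr rfl
        intro j _
        rw [Finset.mul_sum]
    _ ≤ ∑ j ∈ Finset.range (K + 2), (dK κ s K j) ^ 2 * ((j.factorial : ℝ) * s ^ j) := by
        apply Finset.sum_le_sum
        intro j _
        apply mul_le_mul_of_nonneg_left _ (sq_nonneg _)
        have h := sum_sq_pow y (fun n => (Real.sqrt n)⁻¹) N j
        rw [hsq] at h
        exact h
    _ = s * (∑ m ∈ Finset.range (K + 1), (κ ^ 2 * s) ^ m / (m.factorial : ℝ) +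
          (κ ^ 2 * s) ^ (K + 1) / (K.factorial : ℝ)) := sum_dK κ s K
    _ ≤ s * (Real.exp (κ ^ 2 * s) + Real.exp (κ ^ 2 * s)) := by
        apply mul_le_mul_of_nonneg_left _ hs0
        apply add_le_add (Real.sum_le_exp_of_nonneg hl0 (K + 1))
        exact (tail_le _ hl0 K hK).trans (Real.one_le_exp hl0)
    _ = 2 * s * Real.exp (κ ^ 2 * s) := by ring

end

end Pool.Agent.Y665.LD
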