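import Pool.Agent.Y665.LD.D

set_option autoImplicit false

/-!
LD project (helper745), job LD-VMS (helper665): weighted mean squares of sums over the small primes.
-/

namespace Pool.Agent.Y665.LD

open Filter Topology MeasureTheory Complex
open Pool.Agent.Y745.SW Pool.Agent.Y745.LD Pool.Agent.Y41.SW

noncomputable section

lemma cont_Pc (c T : ℝ) : Continuous (fun t : ℝ => Pc c T t) := by
  have : (fun t : ℝ => Pc c T t) = fun t : ℝ => DP (pA (yc c T)) ⌊yc c T⌋₊ t := by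
    funext t
    exact Py_eq _ _
  rw [this]
  exact cont_DP _ _

lemma cont_V (κ c A T : ℝ) : Continuous (fun t : ℝ => V κ c A T t) := by
  unfold V Qk tex
  apply Continuous.pow
  apply Continuous.norm
  apply continuous_finsetSum
  intro j _
  apply Continuous.div_const
  apply Continuous.pow
  exact continuous_const.mul (cont_Pc c T)

lemma V_nonneg (κ c A T t : ℝ) : 0 ≤ V κ c A T t := sq_nonneg _

lemma IV_nonneg (κ c A T : ℝ) (hT : 0 ≤ T) : 0 ≤ IV κ c A T := by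
  unfold IV
  apply intervalIntegral.integral_nonneg (by linarith)
  intro t _
  exact V_nonneg κ c A T t

/-- the weighted mean square for real coefficients -/
lemma VMS_real (hMVB : P_MVB) (κ c A T C : ℝ) (hT1 : 1 ≤ T) (hC : 1 ≤ C)
    (hN : 8 * (NN c A T : ℝ) * (1 + Real.log (NN c A T)) ≤ T)
    (hIV : T * Real.exp (κ ^ 2 * sc c T) ≤ C * IV κ c A T) (b : ℕ → ℝ) :
    ∫ t in T..(2 * T), V κ c A T t * ‖∑ p ∈ Pr c T, (b p : ℂ) * (p : ℂ) ^ (-(t : ℂ) * I)‖ ^ 2 ≤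
      (4 * (κ ^ 2 + 1) * Real.exp 3 * C) * IV κ c A T *
        ((∑ p ∈ Pr c T, |b p| / Real.sqrt p) ^ 2 + ∑ p ∈ Pr c T, |b p| ^ 2) := by
  have hT0 : 0 ≤ T := by linarith
  have hIV0 := IV_nonneg κ c A T hT0
  have hσ0 : 0 ≤ ∑ p ∈ Pr c T, |b p| ^ 2 := Finset.sum_nonneg fun p _ => by positivity
  rcases hσ0.eq_or_lt with h0 | h0
  · have hb : ∀ p ∈ Pr c T, b p = 0 := by
      intro p hp
      have := (Finset.sum_eq_zero_iff_of_nonneg (fun p _ => by positivity)).mp h0.symm p hp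
      exact abs_eq_zero.mp (pow_eq_zero_iff (two_ne_zero) |>.mp this)
    have e : ∀ t : ℝ, ∑ p ∈ Pr c T, (b p : ℂ) * (p : ℂ) ^ (-(t : ℂ) * I) = 0 := by
      intro t
      apply Finset.sum_eq_zero
      intro p hp
      rw [hb p hp]
      simp
    simp only [e]
    simp only [norm_zero, ne_eq, OfNat.ofNat_ne_zero, not_false_eq_true, zero_pow, mul_zero,
      intervalIntegral.integral_zero]
    positivity
  · set X := ⌊yc c T⌋₊ with hX
    set K := KA A T with hK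
    set h : ℕ → ℝ := fun n => ∑ j ∈ Finset.range (K + 1), ((j.factorial : ℝ))⁻¹ *
      ((gA (yc c T) (fun n => κ * (Real.sqrt n)⁻¹)) ^ j * gA (yc c T) b) n with hh
    have hX1 : 1 ≤ X := fl_yc c T hT1
    have e : ∀ t : ℝ, V κ c A T t * ‖∑ p ∈ Pr c T, (b p : ℂ) * (p : ℂ) ^ (-(t : ℂ) * I)‖ ^ 2 =
        ‖DP h (NN c A T) t‖ ^ 2 := by
      intro t
      unfold V Qk
      rw [← mul_pow, ← norm_mul, bP, kP, tex_mul _ _ hX1 _ _ (gA_supp _ _) (gA_supp _ _)]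
      rfl
    simp only [e]
    have h1 := mv hMVB h (NN c A T) T hT0 hN
    have h2 : ∑ n ∈ Finset.Icc 1 (NN c A T), (h n) ^ 2 ≤ 2 * (κ ^ 2 + 1) * Real.exp 3 *
        ((∑ p ∈ Pr c T, |b p| / Real.sqrt p) ^ 2 + ∑ p ∈ Pr c T, |b p| ^ 2) *
        Real.exp (κ ^ 2 * sc c T) := coef_VMS2 κ (yc c T) b K (NN c A T) h0
    set W := (∑ p ∈ Pr c T, |b p| / Real.sqrt p) ^ 2 + ∑ p ∈ Pr c T, |b p| ^ 2 with hW
    have hW0 : 0 ≤ W := by positivity
    calc ∫ t in T..(2 * T), ‖DP h (NN c A T) t‖ ^ 2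
        ≤ 2 * T * ∑ n ∈ Finset.Icc 1 (NN c A T), (h n) ^ 2 := h1
      _ ≤ 2 * T * (2 * (κ ^ 2 + 1) * Real.exp 3 * W * Real.exp (κ ^ 2 * sc c T)) :=
          mul_le_mul_of_nonneg_left h2 (by positivity)
      _ = (4 * (κ ^ 2 + 1) * Real.exp 3 * W) * (T * Real.exp (κ ^ 2 * sc c T)) := by ring
      _ ≤ (4 * (κ ^ 2 + 1) * Real.exp 3 * W) * (C * IV κ c A T) :=
          mul_le_mul_of_nonneg_left hIV (by positivity)
      _ = (4 * (κ ^ 2 + 1) * Real.exp 3 * C) * IV κ c A T * W := by ring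

theorem t_VMS (hMVB : P_MVB) (hVM1 : P_VM1) : P_VMS := by
  intro κ c hc0 hc1
  obtain ⟨A0, hA0⟩ := hVM1 κ c hc0 hc1
  refine ⟨A0, fun A hA => ?_⟩
  obtain ⟨C, hC, hev⟩ := hA0 A hA
  have hE3 : 1 ≤ Real.exp 3 := Real.one_le_exp (by norm_num)
  refine ⟨16 * (κ ^ 2 + 1) * Real.exp 3 * C, ?_, ?_⟩
  · have h1 : 1 ≤ κ ^ 2 + 1 := by nlinarith [sq_nonneg κ]
    have h2 : 1 ≤ (κ ^ 2 + 1) * Real.exp 3 := by nlinarith
    have h3 : 1 ≤ (κ ^ 2 + 1) * Real.exp 3 * C := by nlinarith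
    calc (1 : ℝ) ≤ 16 * ((κ ^ 2 + 1) * Real.exp 3 * C) := by linarith
      _ = 16 * (κ ^ 2 + 1) * Real.exp 3 * C := by ring
  filter_upwards [hev, NN_ev c A hc0 hc1] with T hT hNN
  obtain ⟨-, hIV, -, -⟩ := hT
  obtain ⟨hT1, -, -, hN⟩ := hNN
  intro b
  have hT0 : 0 ≤ T := by linarith
  have hIV0 := IV_nonneg κ c A T hT0
  have hR := VMS_real hMVB κ c A T C hT1 hC hN hIV (fun p => (b p).re)
  have hI := VMS_real hMVB κ c A T C hT1 hC hN hIV (fun p => (b p).im)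
  set W := (∑ p ∈ Pr c T, ‖b p‖ / Real.sqrt p) ^ 2 + ∑ p ∈ Pr c T, ‖b p‖ ^ 2 with hW
  set A1 : ℝ → ℂ := fun t => ∑ p ∈ Pr c T, ((b p).re : ℂ) * (p : ℂ) ^ (-(t : ℂ) * I) with hA1
  set A2 : ℝ → ℂ := fun t => ∑ p ∈ Pr c T, ((b p).im : ℂ) * (p : ℂ) ^ (-(t : ℂ) * I) with hA2
  have hcont1 : Continuous A1 := by
    have : A1 = fun t : ℝ => DP (gA (yc c T) (fun p => (b p).re)) ⌊yc c T⌋₊ t := by
      funext t
      exact bP c T t (fun p => (b p).re)
    rw [this]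
    exact cont_DP _ _
  have hcont2 : Continuous A2 := by
    have : A2 = fun t : ℝ => DP (gA (yc c T) (fun p => (b p).im)) ⌊yc c T⌋₊ t := by
      funext t
      exact bP c T t (fun p => (b p).im)
    rw [this]
    exact cont_DP _ _
  have hsum : ∀ t : ℝ, ∑ p ∈ Pr c T, b p * (p : ℂ) ^ (-(t : ℂ) * I) = A1 t + A2 t * I := by
    intro t
    rw [hA1, hA2]
    show _ = (∑ p ∈ Pr c T, ((b p).re : ℂ) * (p : ℂ) ^ (-(t : ℂ) * I)) +
      (∑ p ∈ Pr c T, ((b p).im : ℂ) * (p : ℂ) ^ (-(t : ℂ) * I)) * I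
    rw [Finset.sum_mul, ← Finset.sum_add_distrib]
    apply Finset.sum_congr rfl
    intro p _
    have hz : b p = ((b p).re : ℂ) + ((b p).im : ℂ) * I := (Complex.re_add_im (b p)).symm
    calc b p * (p : ℂ) ^ (-(t : ℂ) * I) =
          (((b p).re : ℂ) + ((b p).im : ℂ) * I) * (p : ℂ) ^ (-(t : ℂ) * I) := by rw [← hz]
      _ = _ := by ring
  have hWR : (∑ p ∈ Pr c T, |(b p).re| / Real.sqrt p) ^ 2 + ∑ p ∈ Pr c T, |(b p).re| ^ 2 ≤ W := by
    rw [hW]
    apply add_le_add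
    · apply pow_le_pow_left₀ (Finset.sum_nonneg fun p _ => by positivity)
      apply Finset.sum_le_sum
      intro p _
      exact div_le_div_of_nonneg_right (Complex.abs_re_le_norm _) (Real.sqrt_nonneg _)
    · apply Finset.sum_le_sum
      intro p _
      exact pow_le_pow_left₀ (abs_nonneg _) (Complex.abs_re_le_norm _) 2
  have hWI : (∑ p ∈ Pr c T, |(b p).im| / Real.sqrt p) ^ 2 + ∑ p ∈ Pr c T, |(b p).im| ^ 2 ≤ W := by
    rw [hW]
    apply add_le_add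
    · apply pow_le_pow_left₀ (Finset.sum_nonneg fun p _ => by positivity)
      apply Finset.sum_le_sum
      intro p _
      exact div_le_div_of_nonneg_right (Complex.abs_im_le_norm _) (Real.sqrt_nonneg _)
    · apply Finset.sum_le_sum
      intro p _
      exact pow_le_pow_left₀ (abs_nonneg _) (Complex.abs_im_le_norm _) 2
  have hV := cont_V κ c A T
  have hle : ∫ t in T..(2 * T), V κ c A T t * ‖∑ p ∈ Pr c T, b p * (p : ℂ) ^ (-(t : ℂ) * I)‖ ^ 2 ≤
      ∫ t in T..(2 * T), (2 * (V κ c A T t * ‖A1 t‖ ^ 2) + 2 * (V κ c A T t * ‖A2 t‖ ^ 2)) := by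
    apply intervalIntegral.integral_mono_on (by linarith)
    · apply Continuous.intervalIntegrable
      simp only [hsum]
      exact hV.mul (((hcont1.add (hcont2.mul continuous_const)).norm).pow 2)
    · apply Continuous.intervalIntegrable
      exact (continuous_const.mul (hV.mul (hcont1.norm.pow 2))).add
        (continuous_const.mul (hV.mul (hcont2.norm.pow 2)))
    · intro t _
      rw [hsum]
      have h1 : ‖A1 t + A2 t * I‖ ≤ ‖A1 t‖ + ‖A2 t‖ := by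
        refine (norm_add_le _ _).trans ?_
        rw [norm_mul, Complex.norm_I, mul_one]
      have h2 : ‖A1 t + A2 t * I‖ ^ 2 ≤ 2 * ‖A1 t‖ ^ 2 + 2 * ‖A2 t‖ ^ 2 := by
        have h0 := norm_nonneg (A1 t + A2 t * I)
        nlinarith [sq_nonneg (‖A1 t‖ - ‖A2 t‖), norm_nonneg (A1 t), norm_nonneg (A2 t)]
      have h3 := mul_le_mul_of_nonneg_left h2 (V_nonneg κ c A T t)
      linarith
  have hsplit : ∫ t in T..(2 * T), (2 * (V κ c A T t * ‖A1 t‖ ^ 2) + 2 * (V κ c A T t * ‖A2 t‖ ^ 2)) =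
      2 * (∫ t in T..(2 * T), V κ c A T t * ‖A1 t‖ ^ 2) +
        2 * ∫ t in T..(2 * T), V κ c A T t * ‖A2 t‖ ^ 2 := by
    rw [intervalIntegral.integral_add, intervalIntegral.integral_const_mul,
      intervalIntegral.integral_const_mul]
    · exact (continuous_const.mul (hV.mul (hcont1.norm.pow 2))).intervalIntegrable _ _
    · exact (continuous_const.mul (hV.mul (hcont2.norm.pow 2))).intervalIntegrable _ _
  have hC0 : 0 ≤ (4 * (κ ^ 2 + 1) * Real.exp 3 * C) * IV κ c A T := by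
    have : 0 ≤ C := by linarith
    positivity
  have hR' := hR.trans (mul_le_mul_of_nonneg_left hWR hC0)
  have hI' := hI.trans (mul_le_mul_of_nonneg_left hWI hC0)
  have hR'' : (∫ t in T..(2 * T), V κ c A T t * ‖A1 t‖ ^ 2) ≤
      (4 * (κ ^ 2 + 1) * Real.exp 3 * C) * IV κ c A T * W := hR'
  have hI'' : (∫ t in T..(2 * T), V κ c A T t * ‖A2 t‖ ^ 2) ≤
      (4 * (κ ^ 2 + 1) * Real.exp 3 * C) * IV κ c A T * W := hI'
  calc ∫ t in T..(2 * T), V κ c A T t * ‖∑ p ∈ Pr c T, b p * (p : ℂ) ^ (-(t : ℂ) * I)‖ ^ 2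
      ≤ _ := hle
    _ = _ := hsplit
    _ ≤ 2 * ((4 * (κ ^ 2 + 1) * Real.exp 3 * C) * IV κ c A T * W) +
        2 * ((4 * (κ ^ 2 + 1) * Real.exp 3 * C) * IV κ c A T * W) := by linarith
    _ = 16 * (κ ^ 2 + 1) * Real.exp 3 * C * IV κ c A T * W := by ring

theorem t_VMT (hMVB : P_MVB) (hVM1 : P_VM1) : P_VMT := by
  intro κ c hc0 hc1
  obtain ⟨A0, hA0⟩ := hVM1 κ c hc0 hc1
  refine ⟨max A0 (4 * Real.exp 1 * κ ^ 2), fun A hA => ?_⟩
  obtain ⟨C, hC, hev⟩ := hA0 A ((le_max_left _ _).trans hA)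
  have hA2 : 4 * Real.exp 1 * κ ^ 2 ≤ A := (le_max_right _ _).trans hA
  have hLLt : Tendsto (fun T : ℝ => LL T) atTop atTop :=
    Real.tendsto_log_atTop.comp Real.tendsto_log_atTop
  refine ⟨8 * C, by linarith, ?_⟩
  filter_upwards [hev, NN_ev c A hc0 hc1, hLLt.eventually_ge_atTop C] with T hT hNN hLLC
  obtain ⟨hs, hIV, -, -⟩ := hT
  obtain ⟨hT1, hLL1, -, hN⟩ := hNN
  have hT0 : 0 ≤ T := by linarith
  have hIV0 := IV_nonneg κ c A T hT0
  have hs0 : 0 ≤ sc c T := Finset.sum_nonneg fun p _ => by positivity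
  have hs2 : sc c T ≤ 2 * LL T := by
    have h1 := (abs_le.mp hs).2
    nlinarith
  set X := ⌊yc c T⌋₊ with hX
  set K := KA A T with hK
  have hX1 : 1 ≤ X := fl_yc c T hT1
  have hKA : A * LL T ≤ (K : ℝ) := Nat.le_ceil _
  have hKb : 2 * Real.exp 1 * (κ ^ 2 * sc c T) ≤ (K : ℝ) := by
    have h1 : κ ^ 2 * sc c T ≤ κ ^ 2 * (2 * LL T) := mul_le_mul_of_nonneg_left hs2 (sq_nonneg κ)
    have h2 : 2 * Real.exp 1 * (κ ^ 2 * sc c T) ≤ 2 * Real.exp 1 * (κ ^ 2 * (2 * LL T)) :=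
      mul_le_mul_of_nonneg_left h1 (by positivity)
    have h3 : 4 * Real.exp 1 * κ ^ 2 * LL T ≤ A * LL T := mul_le_mul_of_nonneg_right hA2 (by linarith)
    linarith
  set h : ℕ → ℝ := fun n => ∑ j ∈ Finset.range (K + 2), dK κ (sc c T) K j * (pA (yc c T) ^ j) n with hh
  have e : ∀ t : ℝ, V κ c A T t * ‖Pc c T t - ((κ * sc c T : ℝ) : ℂ)‖ ^ 2 = ‖DP h (NN c A T) t‖ ^ 2 := by
    intro t
    unfold V Qk
    rw [← mul_pow, ← norm_mul, tex_centred]
    have e1 : ∑ j ∈ Finset.range (K + 2), ((dK κ (sc c T) K j : ℝ) : ℂ) * Pc c T t ^ j =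
        DP h (NN c A T) t := by
      rw [hh, ← DP_sum (fun j => pA (yc c T) ^ j) (fun j => dK κ (sc c T) K j)]
      apply Finset.sum_congr rfl
      intro j hj
      rw [Finset.mem_range] at hj
      have h3 : X ^ j ≤ NN c A T := by
        unfold NN
        exact Nat.pow_le_pow_right hX1 (by omega)
      have h4 : Pc c T t ^ j = DP ⇑(pA (yc c T) ^ j) (NN c A T) t := by
        unfold Pc
        rw [Py_eq, DP_pow _ _ (pA_supp _)]
        exact DP_extend _ _ _ h3 (supp_pow _ _ (pA_supp _) j) t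
      rw [h4]
    rw [e1]
  simp only [e]
  have h1 := mv hMVB h (NN c A T) T hT0 hN
  have h2 : ∑ n ∈ Finset.Icc 1 (NN c A T), (h n) ^ 2 ≤ 2 * sc c T * Real.exp (κ ^ 2 * sc c T) :=
    coef_VMT κ (yc c T) K (NN c A T) hKb
  calc ∫ t in T..(2 * T), ‖DP h (NN c A T) t‖ ^ 2
      ≤ 2 * T * ∑ n ∈ Finset.Icc 1 (NN c A T), (h n) ^ 2 := h1
    _ ≤ 2 * T * (2 * sc c T * Real.exp (κ ^ 2 * sc c T)) := mul_le_mul_of_nonneg_left h2 (by positivity)
    _ = (4 * sc c T) * (T * Real.exp (κ ^ 2 * sc c T)) := by ring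
    _ ≤ (4 * sc c T) * (C * IV κ c A T) := mul_le_mul_of_nonneg_left hIV (by positivity)
    _ ≤ (4 * (2 * LL T)) * (C * IV κ c A T) := by
        apply mul_le_mul_of_nonneg_right (by linarith)
        have : 0 ≤ C := by linarith
        positivity
    _ = 8 * C * LL T * IV κ c A T := by ring

end

end Pool.Agent.Y665.LD
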